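import Pool.Agent.Helper99.SC.Basic

/-!
# Module SC7: soundness of the slot graph
-/

set_option autoImplicit false

namespace Pool.Agent.Helper99.SC.Sound

open Relation Pool.Agent.Helper99.SC Drawing

variable {V : Type} (T : Drawing V)

/-- consecutive vertices of the cycle -/
def Nb (c : ℕ → V) (u v : V) : Prop := ∃ k, (u = c k ∧ v = c (k + 1)) ∨ (u = c (k + 1) ∧ v = c k)

theorem cd_iff (c : ℕ → V) (d : T.Dart) : T.CD c d ↔ ∃ u v, Nb c u v ∧ T.On u v d := by
  constructor
  · rintro ⟨k, h | h⟩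
    · exact ⟨_, _, ⟨k, Or.inl ⟨rfl, rfl⟩⟩, h⟩
    · exact ⟨_, _, ⟨k, Or.inr ⟨rfl, rfl⟩⟩, h⟩
  · rintro ⟨u, v, ⟨k, ⟨rfl, rfl⟩ | ⟨rfl, rfl⟩⟩, h⟩
    · exact ⟨k, Or.inl h⟩
    · exact ⟨k, Or.inr h⟩

theorem nb_symm {c : ℕ → V} {u v : V} (h : Nb c u v) : Nb c v u := by
  obtain ⟨k, ⟨rfl, rfl⟩ | ⟨rfl, rfl⟩⟩ := h
  · exact ⟨k, Or.inr ⟨rfl, rfl⟩⟩
  · exact ⟨k, Or.inl ⟨rfl, rfl⟩⟩

theorem share_nb {n : ℕ} {c : ℕ → V} (h : T.Ring n c) {u v x y : V} {d : T.Dart}
    (hn : Nb c u v) (hxy : x ≠ y) (h1 : T.On u v d) (h2 : T.On x y d) :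
    x = u ∨ y = v ∨ (x = v ∧ y = u) := by
  obtain ⟨k, ⟨rfl, rfl⟩ | ⟨rfl, rfl⟩⟩ := hn
  · exact h.share k x y d hxy h1 h2
  · exact h.share' k hxy h1 h2

/-- at a junction whose stem is the next dart, every path uses the next dart -/
theorem to_next {f g : T.Dart} {j : T.J} {v : V} (hs : T.Smooth f g)
    (hj : T.base g = Sum.inr j) (hg : g = T.stem j) (h : T.To f v) : T.To g v := by
  obtain ⟨e, h1, h2⟩ := h
  rcases ReflTransGen.cases_head h1 with h3 | ⟨g', h3, h4⟩
  · subst h3
    rw [hs.base, hj] at h2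
    exact absurd h2 (by simp)
  · have hb : T.base g' = Sum.inr j := by rw [← h3.base, hs.base, hj]
    rcases h3.stem hb with h5 | h5
    · obtain ⟨j', _, _, h6, _⟩ := hs
      exact absurd (h5.trans hg.symm) h6
    · rw [hg, ← h5]
      exact ⟨e, h4, h2⟩

/-- at a junction whose stem is the last dart, every path comes from the last dart -/
theorem from_prev {f g : T.Dart} {j : T.J} {u : V} (hs : T.Smooth f g)
    (hj : T.base g = Sum.inr j) (hf : T.rev f = T.stem j) (h : T.From u g) : T.From u f := by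
  have h1 : T.Smooth (T.rev g) (T.rev f) := T.smooth_rev hs
  have h2 : T.base (T.rev f) = Sum.inr j := by rw [hs.base, hj]
  have h3 := to_next T (v := u) h1 h2 hf (by rw [T.to_rev]; exact h)
  rwa [T.to_rev] at h3

/-- a dart based at the vertex `a` is reached from `a` only -/
theorem from_vertex {a u : V} {d : T.Dart} (hd : T.base d = Sum.inl a) (h : T.From u d) :
    u = a := by
  obtain ⟨d₀, h1, h2⟩ := h
  rcases ReflTransGen.cases_tail h2 with h3 | ⟨e, _, h4⟩
  · subst h3
    rw [hd] at h1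
    exact (Sum.inl.inj h1).symm
  · obtain ⟨j, _, h5, _⟩ := h4
    rw [hd] at h5
    exact absurd h5 (by simp)

theorem to_vertex {b v : V} {d : T.Dart} (hd : T.base (T.rev d) = Sum.inl b) (h : T.To d v) :
    v = b := by
  rw [← T.from_rev] at h
  exact from_vertex T hd h

/-- consecutive members of a chain where a property is lost -/
theorem exists_switch {α : Type} (R : α → α → Prop) (p : α → Prop) :
    ∀ (l : List α) (hl : l ≠ []), l.IsChain R → p (l.head hl) → ¬ p (l.getLast hl) →
      ∃ f g, f ∈ l ∧ g ∈ l ∧ R f g ∧ p f ∧ ¬ p g := by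
  intro l
  induction l with
  | nil => intro hl; exact absurd rfl hl
  | cons a l ih =>
    intro hl hc h1 h2
    cases l with
    | nil => exact absurd h1 h2
    | cons b l =>
      rw [List.isChain_cons_cons] at hc
      by_cases hb : p b
      · obtain ⟨f, g, hf, hg, h3, h4, h5⟩ := ih (by simp) hc.2 hb (by
          rw [List.getLast_cons (by simp)] at h2
          exact h2)
        exact ⟨f, g, List.mem_cons_of_mem _ hf, List.mem_cons_of_mem _ hg, h3, h4, h5⟩
      · exact ⟨a, b, by simp, by simp, hc.1, h1, hb⟩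

section slots

variable {n : ℕ} {c : ℕ → V} (hR : T.Ring n c) (a b : V) (hab : a ≠ b) (hnb : ¬ Nb c a b)
include hR hab hnb

/-- types of the cycle darts of an edge -/
theorem cd_type {d : T.Dart} (hd : T.On a b d) (hc : T.CD c d) :
    (∃ v, Nb c a v ∧ T.On a v d) ∨ ∃ u, Nb c u b ∧ T.On u b d := by
  obtain ⟨u, v, h1, h2⟩ := (cd_iff T c d).1 hc
  rcases share_nb T hR h1 hab h2 hd with h | h | ⟨h, h'⟩
  · subst h; exact Or.inl ⟨v, h1, h2⟩
  · subst h; exact Or.inr ⟨u, h1, h2⟩
  · subst h; subst h'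
    exact absurd (nb_symm h1) hnb

theorem type_excl {d : T.Dart} (hne : ∀ u v, Nb c u v → u ≠ v)
    (h1 : ∃ v, Nb c a v ∧ T.On a v d) (h2 : ∃ u, Nb c u b ∧ T.On u b d) : False := by
  obtain ⟨v, h1, h3⟩ := h1
  obtain ⟨u, h2, h4⟩ := h2
  rcases share_nb T hR h1 (hne _ _ h2) h3 h4 with h | h | ⟨_, h⟩
  · subst h; exact hnb h2
  · subst h; exact hnb h1
  · exact hab h.symm

/-- an edge has a dart which is no cycle dart -/
theorem exists_non_cd (hne : ∀ u v, Nb c u v → u ≠ v) (hj : T.Joins a b) :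
    ∃ m, T.On a b m ∧ ¬ T.CD c m := by
  by_contra hcon
  push Not at hcon
  obtain ⟨l, hw⟩ := hj.exists_walk
  obtain ⟨hl, w1, w2, w3⟩ := id hw
  have htype : ∀ d ∈ l, (∃ v, Nb c a v ∧ T.On a v d) ∨ ∃ u, Nb c u b ∧ T.On u b d := fun d hd =>
    cd_type T hR a b hab hnb (hw.on hd) (hcon d (hw.on hd))
  have h1 : ∃ v, Nb c a v ∧ T.On a v (l.head hl) := by
    rcases htype _ (List.head_mem hl) with h | ⟨u, h, h'⟩
    · exact h
    · have := from_vertex T w1 h'.1
      subst this
      exact absurd h hnb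
  have h2 : ¬ ∃ v, Nb c a v ∧ T.On a v (l.getLast hl) := by
    rintro ⟨v, h, h'⟩
    have := to_vertex T w2 h'.2
    subst this
    exact hnb h
  obtain ⟨f, g, hf, hg, hs, pf, pg⟩ := exists_switch T.Smooth
    (fun d => ∃ v, Nb c a v ∧ T.On a v d) l hl w3 h1 h2
  have sg : ∃ u, Nb c u b ∧ T.On u b g := (htype g hg).resolve_left pg
  obtain ⟨j, k1, k2, k3, k4⟩ := id hs
  rcases k4 with k4 | k4
  · obtain ⟨u, s1, s2⟩ := sg
    exact type_excl T hR a b hab hnb hne pf
      ⟨u, s1, from_prev T hs k2 k4 s2.1, (s2.2.trans (ReflTransGen.single hs))⟩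
  · obtain ⟨v, s1, s2⟩ := pf
    exact pg ⟨v, s1, s2.1.trans (ReflTransGen.single hs), to_next T hs k2 k4 s2.2⟩

end slots

/-- the potential is constant along a chain of darts which are no cycle darts -/
theorem const_chain {n : ℕ} {c : ℕ → V} {w : ℕ → List T.Dart} (hS : T.Sys n c w)
    {χ : T.Dart → ZMod 2}
    (hχ : IsPot T.rot T.rev (fun d => ∑ k ∈ Finset.range n, T.cnt (w k) d) χ) :
    ∀ (l : List T.Dart) (hl : l ≠ []), l.IsChain T.Smooth → (∀ d ∈ l, ¬ T.CD c d) →
      ∀ d ∈ l, χ d = χ (l.head hl) := by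
  intro l
  induction l with
  | nil => intro hl; exact absurd rfl hl
  | cons x l ih =>
    intro hl hc hn d hd
    rcases List.mem_cons.1 hd with rfl | hd
    · rfl
    · cases l with
      | nil => simp at hd
      | cons y l =>
        rw [List.isChain_cons_cons] at hc
        have h1 := ih (by simp) hc.2 (fun e he => hn e (List.mem_cons_of_mem _ he)) d hd
        rw [h1]
        simp only [List.head_cons]
        obtain ⟨j, k1, k2, k3, k4⟩ := id hc.1
        have hx := hn x (by simp)
        have hy := hn y (by simp)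
        have hstem : ¬ T.CD c (T.stem j) := by
          rcases k4 with k4 | k4
          · rw [← k4, T.CD_rev]; exact hx
          · rw [← k4]; exact hy
        have hz : ∀ e, T.base e = Sum.inr j → ∑ k ∈ Finset.range n, T.cnt (w k) e = 0 := by
          intro e he
          apply Finset.sum_eq_zero
          intro k _
          by_contra hne
          rcases (hS.walk k).stem_of_cnt hne he with h | h
          · exact hstem ⟨k, Or.inl ((hS.walk k).on h)⟩
          · refine hstem ?_
            rw [← T.CD_rev]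
            exact ⟨k, Or.inl ((hS.walk k).on h)⟩
        have e1 : χ (T.rev (T.rev x)) =
            χ (T.rev x) + ∑ k ∈ Finset.range n, T.cnt (w k) (T.rev x) := hχ.1 (T.rev x)
        rw [T.rev_rev] at e1
        have e2 : ∑ k ∈ Finset.range n, T.cnt (w k) (T.rev x) = 0 := hz _ k1
        rw [e2, add_zero] at e1
        rw [e1]
        exact (T.pot_const hχ hz k1 k2).symm

/-- the potential is constant on the darts of an edge which are no cycle darts -/
theorem const_walk {n : ℕ} {c : ℕ → V} {w : ℕ → List T.Dart} (hS : T.Sys n c w)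
    {χ : T.Dart → ZMod 2}
    (hχ : IsPot T.rot T.rev (fun d => ∑ k ∈ Finset.range n, T.cnt (w k) d) χ)
    {a b : V} (hab : a ≠ b) (hnb : ¬ Nb c a b) {l : List T.Dart} (hw : T.IsWalk a b l)
    {x y : T.Dart} (hx : x ∈ l) (hy : y ∈ l) (cx : ¬ T.CD c x) (cy : ¬ T.CD c y) :
    χ x = χ y := by
  have key : ∀ x y, ∀ l₁ l₂ l₃ : List T.Dart, l = l₁ ++ x :: (l₂ ++ y :: l₃) → ¬ T.CD c x →
      ¬ T.CD c y → χ x = χ y := by
    intro x y l₁ l₂ l₃ hl cx cy
    have hon : ∀ d ∈ l, T.On a b d := fun d hd => hw.on hd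
    obtain ⟨hl', w1, w2, w3⟩ := hw
    have hc : (x :: (l₂ ++ y :: l₃)).IsChain T.Smooth := by
      rw [hl, List.isChain_append] at w3
      exact w3.2.1
    have hc2 : ((x :: l₂) ++ y :: l₃).IsChain T.Smooth := hc
    have hsp := T.chain_split hc2
    have hc3 : ((x :: l₂) ++ [y]).IsChain T.Smooth := by
      rw [List.isChain_append] at hc2 ⊢
      exact ⟨hc2.1, by simp, fun p hp q hq => hc2.2.2 p hp q (by simpa using hq)⟩
    have hh := T.chain_head (l := (x :: l₂) ++ [y]) (by simp) hc3
    have hnon : ∀ d ∈ (x :: l₂) ++ [y], ¬ T.CD c d := by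
      intro d hd hcd
      have hd' : d ∈ l := by
        rw [hl]
        simp only [List.cons_append, List.mem_cons, List.mem_append, List.not_mem_nil,
          or_false] at hd ⊢
        tauto
      have hxd : ReflTransGen T.Smooth x d := by simpa using hh d hd
      have hdy : ReflTransGen T.Smooth d y := by
        rcases List.mem_append.1 hd with h | h
        · exact hsp.1 d h
        · simp only [List.mem_cons, List.not_mem_nil, or_false] at h
          subst h
          exact ReflTransGen.refl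
      have hxl : x ∈ l := by rw [hl]; simp
      have hyl : y ∈ l := by rw [hl]; simp
      rcases cd_type T hS.toRing a b hab hnb (hon d hd') hcd with ⟨v, h1, h2⟩ | ⟨u, h1, h2⟩
      · exact cx ((cd_iff T c x).2 ⟨a, v, h1, (hon x hxl).1, h2.2.trans hxd⟩)
      · exact cy ((cd_iff T c y).2 ⟨u, b, h1, h2.1.trans hdy, (hon y hyl).2⟩)
    have := const_chain T hS hχ ((x :: l₂) ++ [y]) (by simp) hc3 hnon y (by simp)
    rw [this]
    simp
  obtain ⟨l₁, l₂, hl⟩ := List.append_of_mem hx
  rw [hl] at hy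
  rcases List.mem_append.1 hy with h | h
  · obtain ⟨l₃, l₄, h3⟩ := List.append_of_mem h
    refine (key y x l₃ l₄ l₂ ?_ cy cx).symm
    rw [hl, h3]; simp
  · rcases List.mem_cons.1 h with rfl | h
    · rfl
    · obtain ⟨l₃, l₄, h3⟩ := List.append_of_mem h
      refine key x y l₁ l₃ l₄ ?_ cx cy
      rw [hl, h3]

/-- on a closed path every vertex is as often a start as an end -/
theorem even_count {α : Type} [BEq α] [LawfulBEq α] (c : ℕ → α) (n : ℕ) (hc : c n = c 0) (v : α) :
    Even (((List.range n).map c).count v + ((List.range n).map (fun k => c (k + 1))).count v) := by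
  have e3 : (List.range (n + 1)).map c = c 0 :: (List.range n).map (fun k => c (k + 1)) := by
    rw [List.range_succ_eq_map, List.map_cons, List.map_map]
    rfl
  have e4 : (List.range (n + 1)).map c = (List.range n).map c ++ [c n] := by
    rw [List.range_succ, List.map_append]
    rfl
  have e6 : ((List.range n).map c).count v =
      ((List.range n).map (fun k => c (k + 1))).count v := by
    have := congrArg (List.count v) (e3.symm.trans e4)
    rw [List.count_append, List.count_cons, hc, List.count_singleton] at this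
    omega
  rw [e6]
  exact ⟨_, rfl⟩

/-- MODULE SC7. -/
theorem sc_sound (hpot : M_pot) (hr : M_ring) (hk : M_key) : M_sound := by
  classical
  intro Q h hb hsc
  by_cases hQ2 : Q ≤ 1
  · refine ⟨h, h, fun s t => by simp, ?_, ?_⟩ <;>
    · intro s t s' t' h1 _ _
      have e1 := hb.1 s t h1
      have hs : s = 0 := by omega
      have ht : t = 0 := by omega
      subst hs; subst ht
      exact absurd h1 (hb.2 0 0 0 h1)
  push Not at hQ2
  obtain ⟨T, hT⟩ := hsc
  have hn0 : 0 < 4 * Q := by omega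
  have hR := hr Q h (by omega) hb T hT hn0
  set c : ℕ → Fin (4 * Q) := fun k => ⟨k % (4 * Q), Nat.mod_lt _ hn0⟩ with hc
  have cval : ∀ k, (c k).val = k % (4 * Q) := fun k => rfl
  have cmod : ∀ k, (c k).val % 4 = k % 4 := fun k => by
    rw [cval]; exact Nat.mod_mod_of_dvd k ⟨Q, rfl⟩
  have ceq : ∀ i j, c i = c j → i % 4 = j % 4 := fun i j hij => by
    rw [← cmod i, ← cmod j, hij]
  have csucc : ∀ k, c (k % (4 * Q) + 1) = c (k + 1) := fun k => by
    apply Fin.ext
    rw [cval, cval, Nat.mod_add_mod]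
  have cmm : ∀ k, c (k % (4 * Q)) = c k := fun k => by
    apply Fin.ext
    rw [cval, cval, Nat.mod_mod]
  have slot_inj : ∀ s t, s < Q → t < Q → c (4 * s + 2) = c (4 * t + 2) → s = t := by
    intro s t hs ht hst
    have := congrArg Fin.val hst
    rw [cval, cval, Nat.mod_eq_of_lt (by omega), Nat.mod_eq_of_lt (by omega)] at this
    omega
  have hne : ∀ u v, Nb c u v → u ≠ v := by
    rintro u v ⟨k, ⟨rfl, rfl⟩ | ⟨rfl, rfl⟩⟩ he
    · have := ceq _ _ he; omega
    · have := ceq _ _ he; omega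
  have slot_nb : ∀ s t, ¬ Nb c (c (4 * s + 2)) (c (4 * t + 2)) := by
    rintro s t ⟨k, ⟨h1, h2⟩ | ⟨h1, h2⟩⟩
    · have e1 := ceq _ _ h1
      have e2 := ceq _ _ h2
      omega
    · have e1 := ceq _ _ h1
      have e2 := ceq _ _ h2
      omega
  -- adjacency of slots
  have adj_of : ∀ s t, s < Q → t < Q → s ≠ t → h s t → T.Joins (c (4 * s + 2)) (c (4 * t + 2)) := by
    intro s t hs ht hst hh
    have hne' : c (4 * s + 2) ≠ c (4 * t + 2) := fun he => hst (slot_inj s t hs ht he)
    refine (hT _ _ hne').1 ?_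
    rw [slotGraph, SimpleGraph.fromRel_adj]
    refine ⟨hne', Or.inl (Or.inr ⟨s, t, hh, ?_, ?_⟩)⟩
    · rw [cval, Nat.mod_eq_of_lt (by omega)]
    · rw [cval, Nat.mod_eq_of_lt (by omega)]
  have of_adj : ∀ s t, s < Q → t < Q → s ≠ t → T.Joins (c (4 * s + 2)) (c (4 * t + 2)) →
      h s t ∨ h t s := by
    intro s t hs ht hst hj
    have hne' : c (4 * s + 2) ≠ c (4 * t + 2) := fun he => hst (slot_inj s t hs ht he)
    have hadj := (hT _ _ hne').2 hj
    rw [slotGraph, SimpleGraph.fromRel_adj] at hadj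
    have vs : (c (4 * s + 2)).val = 4 * s + 2 := by rw [cval, Nat.mod_eq_of_lt (by omega)]
    have vt : (c (4 * t + 2)).val = 4 * t + 2 := by rw [cval, Nat.mod_eq_of_lt (by omega)]
    have nomod : ∀ a b, (4 * a + 2 + 1) % (4 * Q) = 4 * b + 2 → False := by
      intro a b hab
      have : (4 * a + 2 + 1) % (4 * Q) % 4 = (4 * a + 2 + 1) % 4 :=
        Nat.mod_mod_of_dvd _ ⟨Q, rfl⟩
      omega
    rcases hadj.2 with (h1 | ⟨a, b, h1, h2, h3⟩) | (h1 | ⟨a, b, h1, h2, h3⟩)
    · rw [vs, vt] at h1; exact absurd h1 (fun h => nomod _ _ h)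
    · left
      have ea : a = s := by omega
      have eb : b = t := by omega
      subst ea; subst eb; exact h1
    · rw [vs, vt] at h1; exact absurd h1 (fun h => nomod _ _ h)
    · right
      have ea : a = t := by omega
      have eb : b = s := by omega
      subst ea; subst eb; exact h1
  -- the walks
  have hw0 : ∀ k, ∃ l, T.IsWalk (c k) (c (k + 1)) l := fun k => (hR.joins k).exists_walk
  choose w0 hw0 using hw0
  set w : ℕ → List T.Dart := fun k => w0 (k % (4 * Q)) with hw
  have hS : T.Sys (4 * Q) c w :=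
    { toRing := hR
      walk := fun k => by
        have := hw0 (k % (4 * Q))
        rw [csucc, cmm] at this
        exact this
      wper := fun k => by
        simp only [hw, Nat.add_mod_right] }
  -- the potential
  obtain ⟨χ, hχ⟩ := hpot (Fin (4 * Q)) T
    ((List.range (4 * Q)).map fun k => (c k, c (k + 1), w k)) (by
      intro x hx
      obtain ⟨k, _, rfl⟩ := List.mem_map.1 hx
      exact hS.walk k) (by
      intro v
      rw [List.map_map, List.map_map]
      have e1 : ((fun w : Fin (4 * Q) × Fin (4 * Q) × List T.Dart => w.1) ∘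
        fun k => (c k, c (k + 1), w k)) = c := rfl
      have e2 : ((fun w : Fin (4 * Q) × Fin (4 * Q) × List T.Dart => w.2.1) ∘
        fun k => (c k, c (k + 1), w k)) = fun k => c (k + 1) := rfl
      rw [e1, e2]
      exact @even_count _ (@instBEqOfDecidableEq _ fun a b => Classical.propDecidable (a = b)) _
        c (4 * Q) (by apply Fin.ext; rw [cval, cval]; simp) v)
  have hχ' : IsPot T.rot T.rev (fun d => ∑ k ∈ Finset.range (4 * Q), T.cnt (w k) d) χ := by
    have : (fun d => ∑ k ∈ Finset.range (4 * Q), T.cnt (w k) d) =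
        fun d => (((List.range (4 * Q)).map fun k => (c k, c (k + 1), w k)).map
          fun w => T.cnt w.2.2 d).sum := by
      funext d
      rw [List.map_map]
      rfl
    rw [this]
    exact hχ
  -- the pages
  let A : ZMod 2 → ℕ → ℕ → Prop := fun P s t => h s t ∧
    ∃ m, T.On (c (4 * s + 2)) (c (4 * t + 2)) m ∧ ¬ T.CD c m ∧ χ m = P
  have hswap : ∀ P, SwapClosed (A P) := by
    rintro P s t s' t' ⟨h1, m, m1, m2, m3⟩ ⟨h1', m', m1', m2', m3'⟩ hcr
    have b1 := hb.1 s t h1
    have b2 := hb.1 s' t' h1'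
    have hst : s ≠ t := by rintro rfl; exact hb.2 s s s h1 h1
    have hst' : s' ≠ t' := by rintro rfl; exact hb.2 s' s' s' h1' h1'
    have hss : s ≠ s' := by
      rintro rfl
      unfold Cross at hcr
      omega
    have htt : t ≠ t' := by
      rintro rfl
      unfold Cross at hcr
      omega
    have hst2 : s ≠ t' := by
      rintro rfl
      unfold Cross at hcr
      omega
    obtain ⟨l, hl, hml⟩ := m1.exists_walk
    obtain ⟨l', hl', hml'⟩ := m1'.exists_walk
    have hmeet : ∃ f ∈ l, f ∈ l' ∨ T.rev f ∈ l' := by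
      by_contra hcon
      push Not at hcon
      exact hk _ T Q c w hS χ hχ' s t s' t' b1.1 b1.2 b2.1 b2.2 hcr l l' m m' hl hl' hml hml'
        m2 m2' hcon (m3.trans m3'.symm)
    obtain ⟨f, hf, hf' | hf'⟩ := hmeet
    · have o1 := hl.on hf
      have o2 := hl'.on hf'
      have o3 : T.On (c (4 * s + 2)) (c (4 * t' + 2)) f := ⟨o1.1, o2.2⟩
      have hab : c (4 * s + 2) ≠ c (4 * t + 2) := fun he => hst (slot_inj s t b1.1 b1.2 he)
      have hab' : c (4 * s' + 2) ≠ c (4 * t' + 2) := fun he => hst' (slot_inj s' t' b2.1 b2.2 he)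
      have hcd : ¬ T.CD c f := by
        intro hcd
        obtain ⟨u, v, u1, u2⟩ := (cd_iff T c f).1 hcd
        rcases share_nb T hR u1 hab u2 o1 with g1 | g1 | ⟨g1, g2⟩
        · rcases share_nb T hR u1 hab' u2 o2 with g3 | g3 | ⟨g3, g4⟩
          · exact hss (slot_inj s s' b1.1 b2.1 (g1.trans g3.symm))
          · rw [← g1, ← g3] at u1; exact slot_nb _ _ u1
          · rw [← g3, ← g4] at u1; exact slot_nb _ _ u1
        · rcases share_nb T hR u1 hab' u2 o2 with g3 | g3 | ⟨g3, g4⟩
          · rw [← g1, ← g3] at u1; exact slot_nb _ _ u1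
          · exact htt (slot_inj t t' b1.2 b2.2 (g1.trans g3.symm))
          · rw [← g3, ← g4] at u1; exact slot_nb _ _ u1
        · rw [← g1, ← g2] at u1; exact slot_nb _ _ u1
      have hcol : χ f = P := by
        rw [← m3]
        exact const_walk T hS hχ' hab (slot_nb s t) hl hf hml hcd m2
      refine ⟨?_, f, o3, hcd, hcol⟩
      rcases of_adj s t' b1.1 b2.2 hst2 o3.joins with g | g
      · exact g
      · exact absurd g (hb.2 s' t' s h1')
    · exfalso
      have o1 := hl.on hf
      have o2 := T.on_rev.1 (hl'.on hf')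
      have o3 : T.On (c (4 * s + 2)) (c (4 * s' + 2)) f := ⟨o1.1, o2.2⟩
      rcases of_adj s s' b1.1 b2.1 hss o3.joins with g | g
      · exact hb.2 s s' t' g h1'
      · exact hb.2 s' s t g h1
  refine ⟨A 0, A 1, ?_, hswap 0, hswap 1⟩
  intro s t
  constructor
  · intro hh
    have b1 := hb.1 s t hh
    have hst : s ≠ t := by rintro rfl; exact hb.2 s s s hh hh
    have hab : c (4 * s + 2) ≠ c (4 * t + 2) := fun he => hst (slot_inj s t b1.1 b1.2 he)
    obtain ⟨m, m1, m2⟩ := exists_non_cd T hR _ _ hab (slot_nb s t) hne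
      (adj_of s t b1.1 b1.2 hst hh)
    have h01 : ∀ z : ZMod 2, z = 0 ∨ z = 1 := by decide
    rcases h01 (χ m) with h0 | h0
    · exact Or.inl ⟨hh, m, m1, m2, h0⟩
    · exact Or.inr ⟨hh, m, m1, m2, h0⟩
  · rintro (hh | hh) <;> exact hh.1

end Pool.Agent.Helper99.SC.Sound
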